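import Pool.Agent.QMX.Defs

/-!
Quadratic exponential sums with a measurable phase: elementary facts.
-/

set_option autoImplicit false

namespace Pool.Agent.QMX

open MeasureTheory

theorem L4_le_iff {E : Type} [NormedAddCommGroup E] (f : ℝ → E) (t : ENNReal) :
    L4 f ≤ t ↔ ∫⁻ x in Set.Icc (-1 : ℝ) 1, ‖f x‖ₑ ^ (4 : ℝ) ≤ t ^ (4 : ℝ) := by
  unfold L4
  rw [eLpNorm_eq_lintegral_rpow_enorm_toReal (by norm_num) (by norm_num)]
  have h4 : (4 : ENNReal).toReal = 4 := by norm_num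
  rw [h4, one_div, ENNReal.rpow_inv_le_iff (by norm_num)]

theorem S_fract (N : ℕ) (a : ℤ → ℂ) (c x : ℝ) : S N a (Int.fract c) x = S N a c x := by
  unfold S
  refine Finset.sum_congr rfl fun n _ => ?_
  congr 1
  have e : ((2 * Real.pi * (n * c + n ^ 2 * x) : ℝ) : ℂ) * Complex.I =
      ((2 * Real.pi * (n * Int.fract c + n ^ 2 * x) : ℝ) : ℂ) * Complex.I +
        ((n * ⌊c⌋ : ℤ) : ℂ) * (2 * Real.pi * Complex.I) := by
    have h : (c : ℂ) = (Int.fract c : ℝ) + (⌊c⌋ : ℂ) := by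
      have := Int.fract_add_floor c
      exact_mod_cast this.symm
    push_cast
    rw [h]
    ring
  rw [e, Complex.exp_add, Complex.exp_int_mul_two_pi_mul_I, mul_one]

/-- the coefficients of the translated sum -/
noncomputable def tr (s : ℝ) (a : ℤ → ℂ) (n : ℤ) : ℂ :=
  a n * Complex.exp ((-(2 * Real.pi * (n ^ 2 * s)) : ℝ) * Complex.I)

theorem S_tr (N : ℕ) (a : ℤ → ℂ) (s c x : ℝ) : S N (tr s a) c x = S N a c (x - s) := by
  unfold S tr
  refine Finset.sum_congr rfl fun n _ => ?_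
  rw [mul_assoc, ← Complex.exp_add]
  congr 2
  push_cast
  ring

theorem nrm_tr (N : ℕ) (a : ℤ → ℂ) (s : ℝ) : nrm N (tr s a) = nrm N a := by
  unfold nrm tr
  congr 1
  refine Finset.sum_congr rfl fun n _ => ?_
  rw [norm_mul, Complex.norm_exp_ofReal_mul_I, mul_one]

theorem nrm_nonneg (N : ℕ) (a : ℤ → ℂ) : 0 ≤ nrm N a := Real.sqrt_nonneg _

theorem sum_norm_le (N : ℕ) (a : ℤ → ℂ) :
    ∑ n ∈ Finset.Icc (-(N : ℤ)) N, ‖a n‖ ≤ √(2 * N + 1) * nrm N a := by
  have h1 := Finset.sum_mul_sq_le_sq_mul_sq (Finset.Icc (-(N : ℤ)) N) (fun _ => (1 : ℝ))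
    (fun n => ‖a n‖)
  have hc : ((Finset.Icc (-(N : ℤ)) N).card : ℝ) = 2 * N + 1 := by
    rw [Int.card_Icc]
    have : (N : ℤ) + 1 - -(N : ℤ) = ((2 * N + 1 : ℕ) : ℤ) := by
      push_cast
      ring
    rw [this, Int.toNat_natCast]
    push_cast
    ring
  simp only [one_mul, one_pow, Finset.sum_const, nsmul_eq_mul, mul_one, hc] at h1
  unfold nrm
  rw [← Real.sqrt_mul (by positivity)]
  exact Real.le_sqrt_of_sq_le h1

theorem norm_S_le (N : ℕ) (a : ℤ → ℂ) (c x : ℝ) : ‖S N a c x‖ ≤ √(2 * N + 1) * nrm N a := by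
  unfold S
  refine (norm_sum_le _ _).trans (le_trans (le_of_eq ?_) (sum_norm_le N a))
  refine Finset.sum_congr rfl fun n _ => ?_
  rw [norm_mul, Complex.norm_exp_ofReal_mul_I, mul_one]

theorem norm_S_sub_le (N : ℕ) (a : ℤ → ℂ) (c c' x : ℝ) :
    ‖S N a c x - S N a c' x‖ ≤ 2 * Real.pi * N * |c - c'| * (√(2 * N + 1) * nrm N a) := by
  unfold S
  rw [← Finset.sum_sub_distrib]
  refine (norm_sum_le _ _).trans ?_
  have h1 : ∀ n ∈ Finset.Icc (-(N : ℤ)) N,
      ‖a n * Complex.exp ((2 * Real.pi * (n * c + n ^ 2 * x) : ℝ) * Complex.I) -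
        a n * Complex.exp ((2 * Real.pi * (n * c' + n ^ 2 * x) : ℝ) * Complex.I)‖ ≤
      2 * Real.pi * N * |c - c'| * ‖a n‖ := by
    intro n hn
    rw [Finset.mem_Icc] at hn
    have hn' : |(n : ℝ)| ≤ N := by
      rw [abs_le]
      constructor
      · have := hn.1
        exact_mod_cast this
      · exact_mod_cast hn.2
    rw [← mul_sub, norm_mul, mul_comm ‖a n‖]
    refine mul_le_mul_of_nonneg_right ?_ (norm_nonneg _)
    have e : Complex.exp ((2 * Real.pi * (n * c + n ^ 2 * x) : ℝ) * Complex.I) -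
        Complex.exp ((2 * Real.pi * (n * c' + n ^ 2 * x) : ℝ) * Complex.I) =
        Complex.exp ((2 * Real.pi * (n * c' + n ^ 2 * x) : ℝ) * Complex.I) *
          (Complex.exp (Complex.I * (2 * Real.pi * (n * (c - c')) : ℝ)) - 1) := by
      rw [mul_sub, mul_one, ← Complex.exp_add]
      congr 2
      push_cast
      ring
    rw [e, norm_mul, Complex.norm_exp_ofReal_mul_I, one_mul]
    refine (Real.norm_exp_I_mul_ofReal_sub_one_le).trans ?_
    rw [Real.norm_eq_abs, abs_mul, abs_of_pos (by positivity : (0 : ℝ) < 2 * Real.pi), abs_mul]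
    have : |(n : ℝ)| * |c - c'| ≤ N * |c - c'| := mul_le_mul_of_nonneg_right hn' (abs_nonneg _)
    nlinarith [Real.pi_pos]
  refine (Finset.sum_le_sum h1).trans ?_
  rw [← Finset.mul_sum]
  exact mul_le_mul_of_nonneg_left (sum_norm_le N a) (by positivity)

theorem continuous_S (N : ℕ) (a : ℤ → ℂ) : Continuous fun p : ℝ × ℝ => S N a p.1 p.2 := by
  unfold S
  refine continuous_finsetSum _ fun n _ => ?_
  have h : Continuous fun p : ℝ × ℝ => 2 * Real.pi * (n * p.1 + n ^ 2 * p.2) :=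
    continuous_const.mul ((continuous_const.mul continuous_fst).add
      (continuous_const.mul continuous_snd))
  exact continuous_const.mul (Complex.continuous_exp.comp
    ((Complex.continuous_ofReal.comp h).mul continuous_const))

theorem measurable_S {N : ℕ} {a : ℤ → ℂ} {φ : ℝ → ℝ} (hφ : Measurable φ) :
    Measurable fun x => S N a (φ x) x :=
  Measurable.comp (g := fun p : ℝ × ℝ => S N a p.1 p.2) (f := fun x => (φ x, x))
    (continuous_S N a).measurable (hφ.prodMk measurable_id')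

theorem bdd (N : ℕ) (a : ℤ → ℂ) (x : ℝ) : BddAbove (Set.range fun c : ℝ => ‖S N a c x‖) := by
  refine ⟨√(2 * N + 1) * nrm N a, ?_⟩
  rintro _ ⟨c, rfl⟩
  exact norm_S_le N a c x

end Pool.Agent.QMX
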