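import Mathlib

/-!
Quadratic exponential sums with a measurable phase: definitions.
-/

set_option autoImplicit false

namespace Pool.Agent.QMX

open MeasureTheory

/-- `∑_{|n| ≤ N} a_n e(n c + n² x)`, where `e(t) = exp(2 π i t)` -/
noncomputable def S (N : ℕ) (a : ℤ → ℂ) (c x : ℝ) : ℂ :=
  ∑ n ∈ Finset.Icc (-(N : ℤ)) N,
    a n * Complex.exp ((2 * Real.pi * (n * c + n ^ 2 * x) : ℝ) * Complex.I)

/-- `‖a‖₂` -/
noncomputable def nrm (N : ℕ) (a : ℤ → ℂ) : ℝ := √(∑ n ∈ Finset.Icc (-(N : ℤ)) N, ‖a n‖ ^ 2)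

/-- the `L⁴` norm on `[-1, 1]` -/
noncomputable def L4 {E : Type} [NormedAddCommGroup E] (f : ℝ → E) : ENNReal :=
  eLpNorm f 4 (volume.restrict (Set.Icc (-1 : ℝ) 1))

end Pool.Agent.QMX
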