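import Pool.Agent.QMX.Basic

/-!
Quadratic exponential sums with a measurable phase: gluing of phases.
-/

set_option autoImplicit false

namespace Pool.Agent.QMX

open MeasureTheory

theorem pig_sum (g : ℝ → ENNReal) {l : ℝ} (hl : 0 ≤ l) (M : ℕ) :
    ∫⁻ x in Set.Ioc (-1 : ℝ) (-1 + M * l), g x ≤
      ∑ j ∈ Finset.range M, ∫⁻ x in Set.Ioc (-1 + j * l) (-1 + (j + 1) * l), g x := by
  induction M with
  | zero => simp
  | succ M ih =>
    rw [Finset.sum_range_succ]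
    have h1 : Set.Ioc (-1 : ℝ) (-1 + ((M + 1 : ℕ) : ℝ) * l) =
        Set.Ioc (-1 : ℝ) (-1 + M * l) ∪ Set.Ioc (-1 + M * l) (-1 + (M + 1) * l) := by
      rw [Set.Ioc_union_Ioc_eq_Ioc]
      · push_cast
        rfl
      · have : 0 ≤ M * l := by positivity
        linarith
      · nlinarith
    rw [h1]
    exact (lintegral_union_le _ _ _).trans (add_le_add ih le_rfl)

theorem pig (g : ℝ → ENNReal) {M : ℕ} (hM : 0 < M) : ∃ j : ℕ,
    ∫⁻ x in Set.Icc (-1 : ℝ) 1, g x ≤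
      M * ∫⁻ x in Set.Ioc (-1 + j * (2 / M : ℝ)) (-1 + (j + 1) * (2 / M : ℝ)), g x := by
  have hM' : (0 : ℝ) < M := by exact_mod_cast hM
  have h1 := pig_sum g (by positivity : (0 : ℝ) ≤ 2 / M) M
  have e1 : (-1 : ℝ) + M * (2 / M) = 1 := by
    field_simp
    norm_num
  rw [e1] at h1
  obtain ⟨j, -, hj⟩ := Finset.exists_max_image (Finset.range M)
    (fun j : ℕ => ∫⁻ x in Set.Ioc (-1 + j * (2 / M : ℝ)) (-1 + (j + 1) * (2 / M : ℝ)), g x)
    ⟨0, Finset.mem_range.2 hM⟩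
  refine ⟨j, ?_⟩
  have e2 : ∫⁻ x in Set.Icc (-1 : ℝ) 1, g x = ∫⁻ x in Set.Ioc (-1 : ℝ) 1, g x :=
    setLIntegral_congr Ioc_ae_eq_Icc.symm
  rw [e2]
  refine h1.trans ?_
  have h2 := Finset.sum_le_card_nsmul (Finset.range M) _ _ hj
  simpa using h2

theorem shift_int (g : ℝ → ENNReal) (u l s : ℝ) :
    ∫⁻ y in Set.Ioc (u + s) (u + s + l), g (y - s) = ∫⁻ x in Set.Ioc u (u + l), g x := by
  rw [← lintegral_indicator measurableSet_Ioc, ← lintegral_indicator measurableSet_Ioc]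
  rw [← lintegral_sub_right_eq_self (μ := volume) (Set.indicator (Set.Ioc u (u + l)) g) s]
  refine lintegral_congr fun y => ?_
  by_cases hy : y ∈ Set.Ioc (u + s) (u + s + l)
  · have hy' : y - s ∈ Set.Ioc u (u + l) := ⟨by linarith [hy.1], by linarith [hy.2]⟩
    rw [Set.indicator_of_mem hy, Set.indicator_of_mem hy']
  · have hy' : y - s ∉ Set.Ioc u (u + l) := fun h => hy ⟨by linarith [h.1], by linarith [h.2]⟩
    rw [Set.indicator_of_notMem hy, Set.indicator_of_notMem hy']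

theorem floor_inv {k : ℕ} {y : ℝ} (hy : y ∈ Set.Ioc (1 / ((k : ℝ) + 2)) (1 / ((k : ℝ) + 1))) :
    ⌊y⁻¹⌋₊ = k + 1 := by
  have hk : (0 : ℝ) < (k : ℝ) + 1 := by positivity
  have hk2 : (0 : ℝ) < (k : ℝ) + 2 := by positivity
  have hy0 : 0 < y := lt_trans (by positivity) hy.1
  rw [Nat.floor_eq_iff (by positivity)]
  constructor
  · have h1 := hy.2
    rw [le_div_iff₀ hk] at h1
    rw [← one_div, le_div_iff₀ hy0]
    push_cast
    linarith
  · have h1 := hy.1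
    rw [div_lt_iff₀ hk2] at h1
    rw [← one_div, div_lt_iff₀ hy0]
    push_cast
    linarith

/-- the phases `ψ k` glued along the intervals `(1/(k+2), 1/(k+1)]` -/
noncomputable def glue (ψ : ℕ → ℝ → ℝ) (y : ℝ) : ℝ := Int.fract (ψ (⌊y⁻¹⌋₊ - 1) y)

theorem measurable_glue {ψ : ℕ → ℝ → ℝ} (h : ∀ k, Measurable (ψ k)) : Measurable (glue ψ) := by
  have h1 : Measurable fun p : ℕ × ℝ => ψ p.1 p.2 := measurable_from_prod_countable_right h
  have h2 : Measurable fun y : ℝ => (⌊y⁻¹⌋₊ - 1, y) :=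
    ((measurable_from_nat (f := fun n : ℕ => n - 1)).comp
      (Nat.measurable_floor.comp measurable_inv)).prodMk measurable_id
  exact measurable_fract.comp (h1.comp h2)

theorem glue_mem (ψ : ℕ → ℝ → ℝ) (y : ℝ) : glue ψ y ∈ Set.Icc (0 : ℝ) 1 :=
  ⟨Int.fract_nonneg _, (Int.fract_lt_one _).le⟩

theorem S_glue (ψ : ℕ → ℝ → ℝ) (N : ℕ) (a : ℤ → ℂ) {k : ℕ} {y : ℝ}
    (hy : y ∈ Set.Ioc (1 / ((k : ℝ) + 2)) (1 / ((k : ℝ) + 1))) (x : ℝ) :
    S N a (glue ψ y) x = S N a (ψ k y) x := by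
  unfold glue
  rw [floor_inv hy, Nat.add_sub_cancel, S_fract]

end Pool.Agent.QMX
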