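import Pool.Agent.QMX.Glue

/-!
Quadratic exponential sums with a measurable phase: the constant does not depend on the phase.
-/

set_option autoImplicit false

namespace Pool.Agent.QMX

open MeasureTheory

/-- a bound for every phase gives a uniform bound -/
theorem uniform_of {s : ℝ}
    (h : ∀ φ : ℝ → ℝ, Measurable φ → (∀ x, φ x ∈ Set.Icc (0 : ℝ) 1) → ∃ C : ℝ, ∀ N : ℕ, 1 ≤ N →
      ∀ a : ℤ → ℂ, L4 (fun x => S N a (φ x) x) ≤ ENNReal.ofReal (C * (N : ℝ) ^ s * nrm N a)) :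
    ∃ C : ℝ, ∀ φ : ℝ → ℝ, Measurable φ → ∀ N : ℕ, 1 ≤ N →
      ∀ a : ℤ → ℂ, L4 (fun x => S N a (φ x) x) ≤ ENNReal.ofReal (C * (N : ℝ) ^ s * nrm N a) := by
  by_contra hcon
  push Not at hcon
  choose φ hφ N hN a ha using fun k : ℕ => hcon (((k : ℝ) + 1) * ((2 * ((k + 1) * (k + 2)) : ℕ) : ℝ))
  choose j hj using fun k : ℕ => pig (fun x => ‖S (N k) (a k) (φ k x) x‖ₑ ^ (4 : ℝ))
    (by positivity : 0 < 2 * ((k + 1) * (k + 2)))
  obtain ⟨u, hu⟩ : ∃ u : ℕ → ℝ, ∀ k, u k = -1 + (j k : ℝ) * (2 / ((2 * ((k + 1) * (k + 2)) : ℕ) : ℝ)) :=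
    ⟨_, fun k => rfl⟩
  obtain ⟨v, hv⟩ : ∃ v : ℕ → ℝ, ∀ k, v k = 1 / ((k : ℝ) + 2) - u k := ⟨_, fun k => rfl⟩
  obtain ⟨C, hC⟩ := h (glue fun k y => φ k (y - v k))
    (measurable_glue fun k => (hφ k).comp (measurable_id.sub_const _))
    (glue_mem _)
  obtain ⟨k, hk⟩ := exists_nat_ge C
  have h1 := hC (N k) (hN k) (tr (v k) (a k))
  rw [nrm_tr, L4_le_iff] at h1
  have h2 := ha k
  rw [← not_le, L4_le_iff, not_le] at h2
  have h3 := hj k
  obtain ⟨M, hM⟩ : ∃ M : ℕ, M = 2 * ((k + 1) * (k + 2)) := ⟨_, rfl⟩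
  have hM0 : 0 < M := by
    rw [hM]
    positivity
  have hM1 : (1 : ℝ) ≤ M := by exact_mod_cast hM0
  have huk := hu k
  rw [← hM] at h2 h3 huk
  obtain ⟨l, hl⟩ : ∃ l : ℝ, l = 2 / (M : ℝ) := ⟨_, rfl⟩
  rw [← hl] at h3 huk
  have e1 : (-1 : ℝ) + ((j k : ℝ) + 1) * l = u k + l := by
    rw [huk]
    ring
  rw [e1, ← huk] at h3
  obtain ⟨Z, hZ⟩ : ∃ Z : ℝ, Z = (N k : ℝ) ^ s * nrm (N k) (a k) := ⟨_, rfl⟩
  have hZ0 : 0 ≤ Z := by
    rw [hZ]
    exact mul_nonneg (Real.rpow_nonneg (Nat.cast_nonneg _) _) (nrm_nonneg _ _)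
  rw [mul_assoc, ← hZ] at h1 h2
  -- the piece
  have h4 : ∫⁻ x in Set.Ioc (u k) (u k + l), ‖S (N k) (a k) (φ k x) x‖ₑ ^ (4 : ℝ) ≤
      ENNReal.ofReal (C * Z) ^ (4 : ℝ) := by
    refine le_trans ?_ h1
    rw [← shift_int (fun x => ‖S (N k) (a k) (φ k x) x‖ₑ ^ (4 : ℝ)) (u k) l (v k)]
    have e2 : u k + v k = 1 / ((k : ℝ) + 2) := by
      rw [hv]
      ring
    have e3 : u k + v k + l = 1 / ((k : ℝ) + 1) := by
      rw [e2, hl, hM]
      push_cast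
      field_simp
      ring
    rw [e3, e2]
    have hsub : Set.Ioc (1 / ((k : ℝ) + 2)) (1 / ((k : ℝ) + 1)) ⊆ Set.Icc (-1 : ℝ) 1 := by
      intro y hy
      have hk1 : (0 : ℝ) ≤ k := Nat.cast_nonneg k
      have a1 : 0 < 1 / ((k : ℝ) + 2) := by positivity
      have a2 : 1 / ((k : ℝ) + 1) ≤ 1 := by
        rw [div_le_one (by positivity)]
        linarith
      exact ⟨by linarith [hy.1], hy.2.trans a2⟩
    refine le_trans (le_of_eq ?_) (lintegral_mono_set hsub)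
    refine setLIntegral_congr_fun measurableSet_Ioc fun y hy => ?_
    rw [S_glue _ _ _ hy, S_tr]
  have h5 : ENNReal.ofReal (C * Z) ≤ ENNReal.ofReal (((k : ℝ) + 1) * Z) :=
    ENNReal.ofReal_le_ofReal (mul_le_mul_of_nonneg_right (by linarith) hZ0)
  have h6 : (M : ENNReal) * ENNReal.ofReal (((k : ℝ) + 1) * Z) ^ (4 : ℝ) ≤
      ENNReal.ofReal (((k : ℝ) + 1) * M * Z) ^ (4 : ℝ) := by
    have e4 : ((k : ℝ) + 1) * M * Z = M * (((k : ℝ) + 1) * Z) := by ring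
    rw [e4, ENNReal.ofReal_mul (Nat.cast_nonneg M), ENNReal.ofReal_natCast,
      ENNReal.mul_rpow_of_nonneg _ _ (by norm_num)]
    refine mul_le_mul' ?_ le_rfl
    have hM1' : (1 : ENNReal) ≤ M := by exact_mod_cast hM0
    calc (M : ENNReal) = (M : ENNReal) ^ (1 : ℝ) := (ENNReal.rpow_one _).symm
      _ ≤ (M : ENNReal) ^ (4 : ℝ) := ENNReal.rpow_le_rpow_of_exponent_le hM1' (by norm_num)
  have h7 := calc ENNReal.ofReal (((k : ℝ) + 1) * M * Z) ^ (4 : ℝ)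
      < _ := h2
    _ ≤ _ := h3
    _ ≤ (M : ENNReal) * ENNReal.ofReal (((k : ℝ) + 1) * Z) ^ (4 : ℝ) := by
      refine mul_le_mul' le_rfl (h4.trans ?_)
      exact ENNReal.rpow_le_rpow h5 (by norm_num)
    _ ≤ _ := h6
  exact lt_irrefl _ h7

theorem argmax {F : ℝ → ℝ → ℝ} (hF : Measurable fun p : ℝ × ℝ => F p.1 p.2) {G : Finset ℝ}
    (hG : G.Nonempty) : ∃ φ : ℝ → ℝ, Measurable φ ∧ ∀ x, ∀ c ∈ G, F c x ≤ F (φ x) x := by
  classical
  induction hG using Finset.Nonempty.cons_induction with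
  | singleton c =>
    refine ⟨fun _ => c, measurable_const, fun x d hd => ?_⟩
    rw [Finset.mem_singleton.1 hd]
  | cons c G hc hG ih =>
    obtain ⟨φ, hφ, h⟩ := ih
    have m1 : Measurable fun x => F (φ x) x :=
      Measurable.comp (g := fun p : ℝ × ℝ => F p.1 p.2) (f := fun x => (φ x, x)) hF
        (hφ.prodMk measurable_id')
    have m2 : Measurable fun x => F c x :=
      Measurable.comp (g := fun p : ℝ × ℝ => F p.1 p.2) (f := fun x => (c, x)) hF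
        (measurable_const.prodMk measurable_id')
    refine ⟨fun x => if F (φ x) x < F c x then c else φ x,
      Measurable.ite (measurableSet_lt m1 m2) measurable_const hφ, fun x d hd => ?_⟩
    rcases Finset.mem_cons.1 hd with rfl | hd
    · by_cases hx : F (φ x) x < F d x
      · simp only [hx, if_true]
        exact le_rfl
      · simp only [hx, if_false]
        exact not_lt.1 hx
    · by_cases hx : F (φ x) x < F c x
      · simp only [hx, if_true]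
        exact (h x d hd).trans hx.le
      · simp only [hx, if_false]
        exact h x d hd

theorem exists_phase {N : ℕ} (hN : 1 ≤ N) (a : ℤ → ℂ) : ∃ φ : ℝ → ℝ, Measurable φ ∧
    ∀ x, ⨆ c : ℝ, ‖S N a c x‖ ≤ ‖S N a (φ x) x‖ + 11 * nrm N a := by
  have hN' : (1 : ℝ) ≤ N := by exact_mod_cast hN
  have hN2 : 0 < N ^ 2 := by positivity
  obtain ⟨φ, hφ, h⟩ := argmax (F := fun c x => ‖S N a c x‖)
    (continuous_norm.measurable.comp (continuous_S N a).measurable)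
    (G := (Finset.range (N ^ 2)).image fun j : ℕ => (j : ℝ) / (N : ℝ) ^ 2)
    ⟨_, Finset.mem_image_of_mem _ (Finset.mem_range.2 hN2)⟩
  refine ⟨φ, hφ, fun x => ciSup_le fun c => ?_⟩
  obtain ⟨d, hd⟩ : ∃ d, d = Int.fract c := ⟨_, rfl⟩
  have hd0 : 0 ≤ d := hd ▸ Int.fract_nonneg c
  have hd1 : d < 1 := hd ▸ Int.fract_lt_one c
  rw [← S_fract, ← hd]
  obtain ⟨j, hj⟩ : ∃ j : ℕ, j = ⌊(N : ℝ) ^ 2 * d⌋₊ := ⟨_, rfl⟩
  have hN2' : (0 : ℝ) < (N : ℝ) ^ 2 := by positivity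
  have hj1 : (j : ℝ) ≤ (N : ℝ) ^ 2 * d := by
    rw [hj]
    exact Nat.floor_le (by positivity)
  have hj2 : (N : ℝ) ^ 2 * d < j + 1 := by
    rw [hj]
    exact Nat.lt_floor_add_one _
  have hj3 : j < N ^ 2 := by
    have h1 : (j : ℝ) < (N : ℝ) ^ 2 := by nlinarith
    exact_mod_cast h1
  have h1 := h x ((j : ℝ) / (N : ℝ) ^ 2) (Finset.mem_image_of_mem _ (Finset.mem_range.2 hj3))
  have h2 := norm_S_sub_le N a d ((j : ℝ) / (N : ℝ) ^ 2) x
  have h3 : |d - (j : ℝ) / (N : ℝ) ^ 2| ≤ 1 / (N : ℝ) ^ 2 := by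
    have e : d - (j : ℝ) / (N : ℝ) ^ 2 = ((N : ℝ) ^ 2 * d - j) / (N : ℝ) ^ 2 := by
      field_simp
    rw [e, abs_div, abs_of_pos hN2']
    apply div_le_div_of_nonneg_right _ hN2'.le
    rw [abs_le]
    constructor <;> linarith
  have h4 : √(2 * (N : ℝ) + 1) ≤ 7 / 4 * N := by
    rw [Real.sqrt_le_left (by positivity)]
    nlinarith
  have h5 : ‖S N a d x - S N a ((j : ℝ) / (N : ℝ) ^ 2) x‖ ≤ 11 * nrm N a := by
    refine h2.trans ?_
    have hn := nrm_nonneg N a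
    calc 2 * Real.pi * N * |d - (j : ℝ) / (N : ℝ) ^ 2| * (√(2 * N + 1) * nrm N a) ≤
          2 * Real.pi * N * (1 / (N : ℝ) ^ 2) * (7 / 4 * N * nrm N a) := by
          gcongr
      _ = (7 / 2 * Real.pi) * nrm N a := by
          field_simp
          ring
      _ ≤ 11 * nrm N a := by
          refine mul_le_mul_of_nonneg_right ?_ hn
          linarith [Real.pi_lt_d4]
  have h6 := norm_sub_norm_le (S N a d x) (S N a ((j : ℝ) / (N : ℝ) ^ 2) x)
  linarith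

theorem L4_const (r : ℝ) (hr : 0 ≤ r) : L4 (fun _ => r) ≤ ENNReal.ofReal (2 * r) := by
  rw [L4_le_iff]
  simp only [lintegral_const, MeasurableSet.univ, Measure.restrict_apply, Set.univ_inter,
    Real.volume_Icc]
  rw [Real.enorm_eq_ofReal hr, ENNReal.ofReal_mul (by norm_num), ENNReal.mul_rpow_of_nonneg _ _
    (by norm_num), mul_comm]
  refine mul_le_mul' ?_ le_rfl
  have e : (1 : ℝ) - -1 = 2 := by norm_num
  rw [e]
  calc ENNReal.ofReal 2 = ENNReal.ofReal 2 ^ (1 : ℝ) := (ENNReal.rpow_one _).symm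
    _ ≤ ENNReal.ofReal 2 ^ (4 : ℝ) :=
      ENNReal.rpow_le_rpow_of_exponent_le (by norm_num) (by norm_num)

/-- the uniform bound gives the bound for the maximal function -/
theorem maximal_of {s : ℝ} (hs : 0 ≤ s)
    (h : ∃ C : ℝ, ∀ φ : ℝ → ℝ, Measurable φ → ∀ N : ℕ, 1 ≤ N →
      ∀ a : ℤ → ℂ, L4 (fun x => S N a (φ x) x) ≤ ENNReal.ofReal (C * (N : ℝ) ^ s * nrm N a)) :
    ∃ C : ℝ, ∀ N : ℕ, 1 ≤ N → ∀ a : ℤ → ℂ,
      L4 (fun x => ⨆ c : ℝ, ‖S N a c x‖) ≤ ENNReal.ofReal (C * (N : ℝ) ^ s * nrm N a) := by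
  obtain ⟨C, hC⟩ := h
  refine ⟨|C| + 22, fun N hN a => ?_⟩
  obtain ⟨φ, hφ, h1⟩ := exists_phase hN a
  have hn := nrm_nonneg N a
  have hN' : (1 : ℝ) ≤ N := by exact_mod_cast hN
  have hNs : 1 ≤ (N : ℝ) ^ s := Real.one_le_rpow hN' hs
  have h2 : L4 (fun x => ⨆ c : ℝ, ‖S N a c x‖) ≤
      L4 ((fun x => ‖S N a (φ x) x‖) + fun _ => 11 * nrm N a) := by
    refine eLpNorm_mono_real fun x => ?_
    rw [Real.norm_of_nonneg (Real.iSup_nonneg fun c => norm_nonneg _)]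
    exact h1 x
  have h3 : L4 ((fun x => ‖S N a (φ x) x‖) + fun _ => 11 * nrm N a) ≤
      L4 (fun x => ‖S N a (φ x) x‖) + L4 (fun _ => 11 * nrm N a) :=
    eLpNorm_add_le (continuous_norm.measurable.comp (measurable_S hφ)).aestronglyMeasurable
      measurable_const.aestronglyMeasurable (by norm_num)
  have h4 : L4 (fun x => ‖S N a (φ x) x‖) = L4 (fun x => S N a (φ x) x) := eLpNorm_norm _
  have h5 := L4_const (11 * nrm N a) (by positivity)
  rw [h4] at h3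
  refine h2.trans (h3.trans ((add_le_add (hC φ hφ N hN a) h5).trans ?_))
  have h6 : ENNReal.ofReal (C * (N : ℝ) ^ s * nrm N a) ≤
      ENNReal.ofReal (|C| * (N : ℝ) ^ s * nrm N a) := by
    refine ENNReal.ofReal_le_ofReal ?_
    gcongr
    exact le_abs_self C
  refine (add_le_add h6 le_rfl).trans ?_
  rw [← ENNReal.ofReal_add (by positivity) (by positivity)]
  refine ENNReal.ofReal_le_ofReal ?_
  have : 1 * nrm N a ≤ (N : ℝ) ^ s * nrm N a := mul_le_mul_of_nonneg_right hNs hn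
  nlinarith

/-- the maximal function dominates -/
theorem uniform_of_maximal {s : ℝ} (h : ∃ C : ℝ, ∀ N : ℕ, 1 ≤ N → ∀ a : ℤ → ℂ,
      L4 (fun x => ⨆ c : ℝ, ‖S N a c x‖) ≤ ENNReal.ofReal (C * (N : ℝ) ^ s * nrm N a)) :
    ∃ C : ℝ, ∀ φ : ℝ → ℝ, Measurable φ → ∀ N : ℕ, 1 ≤ N →
      ∀ a : ℤ → ℂ, L4 (fun x => S N a (φ x) x) ≤ ENNReal.ofReal (C * (N : ℝ) ^ s * nrm N a) := by
  obtain ⟨C, hC⟩ := h
  refine ⟨C, fun φ _ N hN a => le_trans ?_ (hC N hN a)⟩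
  exact eLpNorm_mono_real fun x => le_ciSup (bdd N a x) (φ x)

end Pool.Agent.QMX
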